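import Pool.Agent.K1H22.SR.Stm2

set_option autoImplicit false

/-! Project SR2: the piece `ELIM`. -/

namespace Pool.Agent.K1H78.SR2

open Pool.Agent.K1H22.SR2

section
variable {M J : Type} [AddCommMonoid M] [DecidableEq J]

/-- remove the variable `a` -/
def cl (a : J) (z : M × (J → ℕ)) : M × (J → ℕ) := (z.1, fun i => if i = a then 0 else z.2 i)

theorem cl_zero (a : J) : cl a (0 : M × (J → ℕ)) = 0 := by
  refine Prod.ext rfl ?_
  funext i
  change (if i = a then 0 else 0) = 0
  split_ifs <;> rfl

theorem cl_add (a : J) (z w : M × (J → ℕ)) : cl a (z + w) = cl a z + cl a w := by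
  refine Prod.ext rfl ?_
  funext i
  change (if i = a then 0 else z.2 i + w.2 i) = (if i = a then 0 else z.2 i) +
    (if i = a then 0 else w.2 i)
  split_ifs <;> rfl

/-- remove the variables in `A` -/
def clA (A : Finset J) (x : M × (J → ℕ)) : M × (J → ℕ) := (x.1, fun i => if i ∈ A then 0 else x.2 i)

omit [AddCommMonoid M] in
theorem cl_clA (a : J) (A : Finset J) (x : M × (J → ℕ)) : cl a (clA A x) = clA (insert a A) x := by
  refine Prod.ext rfl ?_
  funext i
  change (if i = a then 0 else if i ∈ A then 0 else x.2 i) = if i ∈ insert a A then 0 else x.2 i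
  by_cases h1 : i = a
  · rw [if_pos h1, if_pos (Finset.mem_insert.2 (Or.inl h1))]
  · by_cases h2 : i ∈ A
    · rw [if_neg h1, if_pos h2, if_pos (Finset.mem_insert.2 (Or.inr h2))]
    · rw [if_neg h1, if_neg h2, if_neg]
      rw [Finset.mem_insert]
      rintro (h | h)
      · exact h1 h
      · exact h2 h

/-- the system in one variable -/
def SS (L : J → Set (M × (J → ℕ))) (A : Finset J) (a : J) : Set ((M × (J → ℕ)) × ℕ) :=
  {w | ∃ z, DA L A a z ∧ w = (cl a z, z.2 a)}

variable (L : J → Set (M × (J → ℕ))) (A : Finset J) (a : J)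

theorem build (haA : a ∉ A) (l : List (J × (M × (J → ℕ)))) :
    (∀ p ∈ l, p.1 ∈ insert a A) → (∀ p ∈ l, ∃ z, DA L A p.1 z ∧ ∃ lx : List (M × (J → ℕ)),
      (∀ u ∈ lx, One (SS L A a) u) ∧ lx.length = z.2 a ∧ p.2 = cl a z + lx.sum) →
    ∃ (l' : List (J × (M × (J → ℕ)))) (lx : List (M × (J → ℕ))), (∀ p ∈ l', p.1 ∈ A) ∧
      (∀ p ∈ l', DA L A p.1 p.2) ∧
      (∀ i ∈ A, (l'.map Prod.fst).count i = (l.map Prod.fst).count i) ∧
      (∀ u ∈ lx, One (SS L A a) u) ∧
      lx.length = (l.map Prod.fst).count a + ((l'.map Prod.snd).sum).2 a ∧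
      (l.map Prod.snd).sum = cl a ((l'.map Prod.snd).sum) + lx.sum := by
  induction l with
  | nil =>
    intro _ _
    refine ⟨[], [], by simp, by simp, by simp, by simp, ?_, ?_⟩
    · rfl
    · change (0 : M × (J → ℕ)) = cl a 0 + 0
      rw [cl_zero, add_zero]
  | cons p l ih =>
    intro hA h
    obtain ⟨l', lx, h1, h2, h3, h4, h5, h6⟩ := ih (fun q hq => hA q (List.mem_cons_of_mem _ hq))
      (fun q hq => h q (List.mem_cons_of_mem _ hq))
    obtain ⟨z, hz, lp, hl1, hl2, hl3⟩ := h p List.mem_cons_self
    have hpA := hA p List.mem_cons_self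
    rw [Finset.mem_insert] at hpA
    by_cases hpa : p.1 = a
    · refine ⟨l', p.2 :: lx, h1, h2, ?_, ?_, ?_, ?_⟩
      · intro i hi
        rw [h3 i hi, List.map_cons, List.count_cons_of_ne]
        rw [hpa]
        rintro rfl
        exact haA hi
      · intro u hu
        rcases List.mem_cons.1 hu with rfl | hu
        · rw [hl3]
          rw [hpa] at hz
          exact Pool.Agent.K1H22.SR2.One.mk (cl a z, z.2 a) lp ⟨z, hz, rfl⟩ hl1 hl2
        · exact h4 u hu
      · rw [List.length_cons, h5, List.map_cons, hpa, List.count_cons_self]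
        ring
      · rw [List.map_cons, List.sum_cons, h6, List.sum_cons]
        abel
    · have hpA' : p.1 ∈ A := hpA.resolve_left hpa
      refine ⟨(p.1, z) :: l', lp ++ lx, ?_, ?_, ?_, ?_, ?_, ?_⟩
      · intro q hq
        rcases List.mem_cons.1 hq with rfl | hq
        · exact hpA'
        · exact h1 q hq
      · intro q hq
        rcases List.mem_cons.1 hq with rfl | hq
        · exact hz
        · exact h2 q hq
      · intro i hi
        rw [List.map_cons, List.map_cons, List.count_cons, List.count_cons, h3 i hi]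
      · intro u hu
        rcases List.mem_append.1 hu with hu | hu
        · exact hl1 u hu
        · exact h4 u hu
      · rw [List.length_append, hl2, h5, List.map_cons, List.map_cons,
          List.count_cons_of_ne (fun h => hpa h), List.sum_cons]
        change z.2 a + _ = _ + (z.2 a + _)
        ring
      · rw [List.map_cons, List.sum_cons, h6, List.map_cons, List.sum_cons, cl_add,
          List.sum_append, hl3]
        abel

theorem dir1 (haA : a ∉ A) (j : J) (y : M × (J → ℕ)) (h : DA L (insert a A) j y) :
    ∃ z, DA L A j z ∧ ∃ lx : List (M × (J → ℕ)),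
      (∀ u ∈ lx, One (SS L A a) u) ∧ lx.length = z.2 a ∧ y = cl a z + lx.sum := by
  induction h with
  | @mk j x l hx hA hd hc ih =>
    obtain ⟨l', lx, h1, h2, h3, h4, h5, h6⟩ := build L A a haA l hA ih
    refine ⟨clA A x + (l'.map Prod.snd).sum, ?_, lx, h4, ?_, ?_⟩
    · refine DA.mk x l' hx h1 h2 ?_
      intro i hi
      rw [h3 i hi]
      exact hc i (Finset.mem_insert_of_mem hi)
    · rw [h5, hc a (Finset.mem_insert_self a A)]
      change x.2 a + _ = (if a ∈ A then 0 else x.2 a) + _
      rw [if_neg haA]
    · rw [cl_add, cl_clA, h6, ← add_assoc]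
      rfl

theorem split (l : List (J × (M × (J → ℕ)))) : (∀ p ∈ l, p.1 ∈ A) →
    (∀ p ∈ l, ∀ lx : List (M × (J → ℕ)), (∀ u ∈ lx, DA L (insert a A) a u) →
      lx.length = p.2.2 a → DA L (insert a A) p.1 (cl a p.2 + lx.sum)) →
    ∀ lx : List (M × (J → ℕ)), (∀ u ∈ lx, DA L (insert a A) a u) →
      lx.length = ((l.map Prod.snd).sum).2 a →
    ∃ l' : List (J × (M × (J → ℕ))), (∀ p ∈ l', p.1 ∈ A) ∧ (∀ p ∈ l', DA L (insert a A) p.1 p.2) ∧
      l'.map Prod.fst = l.map Prod.fst ∧
      (l'.map Prod.snd).sum = cl a ((l.map Prod.snd).sum) + lx.sum := by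
  induction l with
  | nil =>
    intro _ _ lx _ hlen
    have : lx = [] := List.length_eq_zero_iff.1 hlen
    subst this
    refine ⟨[], by simp, by simp, rfl, ?_⟩
    change (0 : M × (J → ℕ)) = cl a 0 + 0
    rw [cl_zero, add_zero]
  | cons p l ih =>
    intro hA h lx hlx hlen
    rw [List.map_cons, List.sum_cons] at hlen
    change lx.length = p.2.2 a + ((l.map Prod.snd).sum).2 a at hlen
    obtain ⟨l', h1, h2, h3, h4⟩ := ih (fun q hq => hA q (List.mem_cons_of_mem _ hq))
      (fun q hq => h q (List.mem_cons_of_mem _ hq)) (lx.drop (p.2.2 a))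
      (fun u hu => hlx u (List.mem_of_mem_drop hu)) (by rw [List.length_drop, hlen]; omega)
    refine ⟨(p.1, cl a p.2 + (lx.take (p.2.2 a)).sum) :: l', ?_, ?_, ?_, ?_⟩
    · intro q hq
      rcases List.mem_cons.1 hq with rfl | hq
      · exact hA p List.mem_cons_self
      · exact h1 q hq
    · intro q hq
      rcases List.mem_cons.1 hq with rfl | hq
      · refine h p List.mem_cons_self _ (fun u hu => hlx u (List.mem_of_mem_take hu)) ?_
        rw [List.length_take, hlen]
        omega
      · exact h2 q hq
    · rw [List.map_cons, List.map_cons, h3]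
    · rw [List.map_cons, List.sum_cons, h4, List.map_cons, List.sum_cons, cl_add]
      have h5 : lx.sum = (lx.take (p.2.2 a)).sum + (lx.drop (p.2.2 a)).sum := by
        rw [← List.sum_append, List.take_append_drop]
      rw [h5]
      change (cl a p.2 + (lx.take (p.2.2 a)).sum) + (cl a (l.map Prod.snd).sum +
        (lx.drop (p.2.2 a)).sum) = _
      generalize cl a p.2 = c1
      generalize (lx.take (p.2.2 a)).sum = c2
      generalize cl a (l.map Prod.snd).sum = c3
      generalize (lx.drop (p.2.2 a)).sum = c4
      abel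

theorem dir2 (haA : a ∉ A) (j : J) (z : M × (J → ℕ)) (h : DA L A j z) :
    ∀ lx : List (M × (J → ℕ)), (∀ u ∈ lx, DA L (insert a A) a u) → lx.length = z.2 a →
      DA L (insert a A) j (cl a z + lx.sum) := by
  induction h with
  | @mk j x l hx hA hd hc ih =>
    intro lx hlx hlen
    change lx.length = (if a ∈ A then 0 else x.2 a) + ((l.map Prod.snd).sum).2 a at hlen
    rw [if_neg haA] at hlen
    obtain ⟨l', h1, h2, h3, h4⟩ := split L A a l hA ih (lx.drop (x.2 a))
      (fun u hu => hlx u (List.mem_of_mem_drop hu)) (by rw [List.length_drop, hlen]; omega)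
    have h5 : lx.sum = (lx.take (x.2 a)).sum + (lx.drop (x.2 a)).sum := by
      rw [← List.sum_append, List.take_append_drop]
    have h6 : (lx.take (x.2 a)).length = x.2 a := by
      rw [List.length_take, hlen]
      omega
    set lt := lx.take (x.2 a) with hlt
    have h7 : ((lt.map fun u => ((a, u) : J × (M × (J → ℕ)))) ++ l').map Prod.fst =
        List.replicate (x.2 a) a ++ l.map Prod.fst := by
      rw [List.map_append, h3, List.map_map]
      congr 1
      rw [← h6]
      clear_value lt
      clear h6 hlt h5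
      induction lt with
      | nil => rfl
      | cons u t iht =>
        rw [List.map_cons, List.length_cons, List.replicate_succ, iht]
        rfl
    have h8 : ((lt.map fun u => ((a, u) : J × (M × (J → ℕ)))) ++ l').map Prod.snd =
        lt ++ l'.map Prod.snd := by
      rw [List.map_append, List.map_map]
      congr 1
      exact List.map_id lt
    have h9 := DA.mk (L := L) (A := insert a A) x
      ((lt.map fun u => ((a, u) : J × (M × (J → ℕ)))) ++ l') hx ?_ ?_ ?_
    · rw [h8, List.sum_append, h4] at h9
      have h10 : cl a (clA A x + (l.map Prod.snd).sum) + lx.sum =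
          clA (insert a A) x + (lt.sum + (cl a ((l.map Prod.snd).sum) +
            (lx.drop (x.2 a)).sum)) := by
        rw [cl_add, cl_clA, h5]
        abel
      have h11 : DA L (insert a A) j (clA (insert a A) x + (lt.sum +
          (cl a ((l.map Prod.snd).sum) + (lx.drop (x.2 a)).sum))) := h9
      rw [← h10] at h11
      exact h11
    · intro q hq
      rcases List.mem_append.1 hq with hq | hq
      · obtain ⟨u, -, rfl⟩ := List.mem_map.1 hq
        exact Finset.mem_insert_self a A
      · exact Finset.mem_insert_of_mem (h1 q hq)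
    · intro q hq
      rcases List.mem_append.1 hq with hq | hq
      · obtain ⟨u, hu, rfl⟩ := List.mem_map.1 hq
        exact hlx u (List.mem_of_mem_take hu)
      · exact h2 q hq
    · intro i hi
      rw [h7, List.count_append]
      by_cases hia : i = a
      · subst hia
        rw [List.count_replicate_self, List.count_eq_zero_of_not_mem, add_zero]
        intro hmem
        obtain ⟨q, hq, hqi⟩ := List.mem_map.1 hmem
        exact haA (hqi ▸ hA q hq)
      · have hiA : i ∈ A := (Finset.mem_insert.1 hi).resolve_left hia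
        rw [hc i hiA, List.count_eq_zero_of_not_mem, zero_add]
        intro hmem
        exact hia (List.eq_of_mem_replicate hmem)

theorem dir3 (haA : a ∉ A) (u : M × (J → ℕ)) (h : One (SS L A a) u) :
    DA L (insert a A) a u := by
  induction h with
  | mk x l hx hd hlen ih =>
    obtain ⟨z, hz, rfl⟩ := hx
    exact dir2 L A a haA a z hz l ih hlen

end

theorem t_ELIM : S_ELIM := by
  intro M J _ _ L A a haA j y
  constructor
  · intro h
    exact dir1 L A a haA j y h
  · rintro ⟨z, hz, lx, h1, h2, h3⟩
    rw [h3]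
    exact dir2 L A a haA j z hz lx (fun u hu => dir3 L A a haA u (h1 u hu)) h2

end Pool.Agent.K1H78.SR2
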